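import Pool.Agent.P8H67.TU.Stm
import Pool.Agent.P8H93.TD.Avg

/-!
# Package TU/AVG (for helper67)
-/

set_option autoImplicit false

open Set Filter Topology

namespace Pool.Agent.P8H88.TU

open Pool.Agent.P8H67.TD (Bd PMean vtx)
open Pool.Agent.P8H67.TU Pool.Agent.P8H93.TD
open Pool.Agent.N520.SV (Sx Chain face bdry norm1)

section chain

variable {Z : Type} [TopologicalSpace Z] {k : ℕ}

/-- the value of a cochain at a chain -/
noncomputable def Pz (φ : C(Sx k, Z) → ℝ) : Chain k Z →ₗ[ℝ] ℝ := Finsupp.linearCombination ℝ φ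

theorem Pz_single (φ : C(Sx k, Z) → ℝ) (σ : C(Sx k, Z)) : Pz φ (Finsupp.single σ 1) = φ σ := by
  rw [Pz, Finsupp.linearCombination_single, one_smul]

theorem Pz_bound {φ : C(Sx k, Z) → ℝ} {C : ℝ} (hφ : ∀ s, |φ s| ≤ C) (c : Chain k Z) :
    |Pz φ c| ≤ norm1 c * C := by
  rw [Pz, Finsupp.linearCombination_apply, Finsupp.sum, norm1, Finset.sum_mul]
  refine (Finset.abs_sum_le_sum_abs _ _).trans (Finset.sum_le_sum fun τ hτ => ?_)
  rw [smul_eq_mul, abs_mul]
  exact mul_le_mul_of_nonneg_left (hφ τ) (abs_nonneg _)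

theorem Pz_bdry {φ : C(Sx (k + 1), Z) → ℝ}
    (h3 : ∀ τ : C(Sx (k + 2), Z),
      ∑ i : Fin (k + 3), (-1 : ℝ) ^ (i : ℕ) * φ (τ.comp (face i)) = 0) (c : Chain (k + 2) Z) :
    Pz φ (bdry (k + 1) c) = 0 := by
  rw [bdry, Finsupp.linearCombination_apply, Finsupp.sum, map_sum]
  refine Finset.sum_eq_zero fun τ hτ => ?_
  rw [map_smul, map_sum]
  have : ∑ i : Fin (k + 1 + 2), Pz φ (((-1 : ℝ) ^ (i : ℕ)) • Finsupp.single (τ.comp (face i)) 1) = 0 := by
    rw [← h3 τ]
    refine Finset.sum_congr rfl fun i _ => ?_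
    rw [map_smul, Pz_single, smul_eq_mul]
  rw [this, smul_zero]

theorem Pz_map {φ : C(Sx k, Z) → ℝ} (c : Chain k Z) (F : C(Sx k, Z) → C(Sx k, Z))
    (h : ∀ τ, φ (F τ) = φ τ) : Pz φ (Finsupp.mapDomain F c) = Pz φ c := by
  rw [Pz, Finsupp.linearCombination_mapDomain, Finsupp.linearCombination_apply,
    Finsupp.linearCombination_apply]
  refine Finsupp.sum_congr fun τ hτ => ?_
  rw [Function.comp_apply, h τ]

end chain

section

variable {V U Γ : Type} [NormedAddCommGroup V] [NormedSpace ℝ V] [Group Γ] [MulAction Γ U]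
  {θ : Γ →* (V ≃ₗ[ℝ] V)} {c : Γ → U → V}

/-- the tuples over `u` -/
def Ow {n : ℕ} (u : Fin n → U) : Set (Fin n → V × U) := {x | ∀ i, (x i).2 = u i}

theorem mnw {I : ∀ n, (Fin n → U) → ((Fin n → V × U) → ℝ) → ℝ} (hI : ItOf V U Γ θ c I) {n : ℕ}
    (u : Fin n → U) : Mn (Ow u) (I n u) := by
  obtain ⟨h1, h2, h3, h4, -⟩ := hI.1 n u
  exact ⟨h1, h2, h3, h4⟩

end

theorem avg : S_AVG := by
  intro hSTR hPRI hFIELD hIM V U Γ _ _ _ _ _ _ θ c hS hP k φ C h1 h2 h3
  obtain ⟨Str, s1, s2⟩ := hSTR V U Γ θ c hS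
  obtain ⟨pr, p1, p2, p3⟩ := hPRI V U
  obtain ⟨I, hI⟩ := hIM V U Γ θ c (hFIELD V U Γ θ c hS hP)
  -- the action as a continuous map
  have hG : ∀ γ : Γ, ∃ G : C(V × U, V × U), ∀ p, G p = fac θ c γ p := by
    intro γ
    have hc : Continuous (θ γ : V → V) := (θ γ : V →ₗ[ℝ] V).continuous_of_finiteDimensional
    exact ⟨⟨fac θ c γ, ((hc.comp continuous_fst).add ((hS.ccont γ).comp continuous_snd)).prodMk
      ((hS.cont γ).comp continuous_snd)⟩, fun _ => rfl⟩
  -- the components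
  let sV : ∀ {n : ℕ}, C(Sx n, V × U) → C(Sx n, V) := fun s => ContinuousMap.fst.comp s
  let sU : ∀ {n : ℕ}, C(Sx n, V × U) → C(Sx n, U) := fun s => ContinuousMap.snd.comp s
  have hsVU : ∀ {n : ℕ} (s : C(Sx n, V × U)), (sV s).prodMk (sU s) = s := fun s => by
    ext t
    · rfl
    · rfl
  -- the first function
  obtain ⟨A, hA⟩ : ∃ A : C(Sx (k + 1), U) → (Fin (k + 2) → V × U) → ℝ,
    A = fun u x => φ ((Str (k + 1) u x).prodMk u) := ⟨_, rfl⟩
  have hAb : ∀ u, Bd (A u) := fun u => ⟨C, fun x => by rw [hA]; exact h1 _⟩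
  -- the second function
  obtain ⟨H, hH⟩ : ∃ H : C(Sx k, V × U) → (Fin (k + 1) → V × U) → ℝ,
    H = fun s x => Pz φ (pr k (sV s) (Str k (sU s) x) (sU s)) := ⟨_, rfl⟩
  obtain ⟨Cp, hCp⟩ := p2 k
  have hHb : ∀ s, Bd (H s) := by
    intro s
    refine ⟨Cp * |C|, fun x => ?_⟩
    rw [hH]
    refine (Pz_bound h1 _).trans ?_
    have hn : 0 ≤ norm1 (pr k (sV s) (Str k (sU s) x) (sU s)) :=
      Finset.sum_nonneg fun _ _ => abs_nonneg _
    exact (mul_le_mul_of_nonneg_left (le_abs_self C) hn).trans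
      (mul_le_mul_of_nonneg_right (hCp _ _ _) (abs_nonneg _))
  refine ⟨fun u => I (k + 2) (fun i => u (vtx i)) (A u),
    fun s => - I (k + 1) (fun i => (s (vtx i)).2) (H s), ?_, ?_, ?_, ?_⟩
  · -- invariance of `β`
    intro γ u u' huu
    have e1 : (fun i : Fin (k + 2) => u' (vtx i)) = fun i => γ • u (vtx i) := funext fun i => huu _
    show I (k + 2) (fun i => u' (vtx i)) (A u') = I (k + 2) (fun i => u (vtx i)) (A u)
    rw [e1, (hI.1 (k + 2) fun i => u (vtx i)).2.2.2.2 γ (A u') (hAb u')]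
    congr 1
    funext x
    rw [hA]
    refine h2 γ _ _ fun t => ?_
    rw [ContinuousMap.prod_eval, ContinuousMap.prod_eval, s2 (k + 1) u u' x γ huu t, huu]
    rfl
  · -- `β` is a cocycle
    intro τ
    have hM : Mn (Ow fun i => τ (vtx i)) (I (k + 3) fun i => τ (vtx i)) := mnw hI _
    have e1 : ∀ i : Fin (k + 3), I (k + 2) (fun l => (τ.comp (face i)) (vtx l)) (A (τ.comp (face i))) =
        I (k + 3) (fun i => τ (vtx i)) (fun x => A (τ.comp (face i)) fun a => x (i.succAbove a)) := by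
      intro i
      rw [hI.2 (k + 2) (fun i => τ (vtx i)) i _ (hAb _)]
      simp only [ContinuousMap.comp_apply, face_vtx]
    have hb2 : ∀ i : Fin (k + 3), Bd (fun x : Fin (k + 3) → V × U =>
        A (τ.comp (face i)) fun a => x (i.succAbove a)) := by
      intro i
      obtain ⟨D, hD⟩ := hAb (τ.comp (face i))
      exact ⟨D, fun x => hD _⟩
    simp only [e1]
    rw [← hM.sum Finset.univ (fun i : Fin (k + 3) => (-1 : ℝ) ^ (i : ℕ)) fun i _ => hb2 i]
    refine hM.zero_of (bd_sum _ _ fun i _ => hb2 i) fun x hx => ?_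
    rw [← h3 ((Str (k + 2) τ x).prodMk τ)]
    refine Finset.sum_congr rfl fun i _ => ?_
    rw [hA]
    show _ * φ ((Str (k + 1) (τ.comp (face i)) fun a => x (i.succAbove a)).prodMk (τ.comp (face i))) = _
    rw [← s1 (k + 1) τ x i]
    rfl
  · -- invariance of `η`
    intro γ s s' hss
    have e1 : (fun i : Fin (k + 1) => (s' (vtx i)).2) = fun i => γ • (s (vtx i)).2 :=
      funext fun i => by rw [hss]; rfl
    show - I (k + 1) (fun i => (s' (vtx i)).2) (H s') = - I (k + 1) (fun i => (s (vtx i)).2) (H s)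
    rw [e1, (hI.1 (k + 1) fun i => (s (vtx i)).2).2.2.2.2 γ (H s') (hHb s')]
    congr 2
    funext x
    rw [hH]
    obtain ⟨G, hGG⟩ := hG γ
    have e2 : ∀ t, sU s' t = γ • sU s t := fun t => congrArg Prod.snd (hss t)
    have e3 : ∀ t, sV s' t = θ γ (sV s t) + c γ (sU s t) := fun t => congrArg Prod.fst (hss t)
    have e4 := p3 (θ γ) (c γ) (fun y => γ • y) G hGG k (sV s) (Str k (sU s) x) (sV s')
      (Str k (sU s') fun i => fac θ c γ (x i)) (sU s) (sU s') e3
      (fun t => s2 k (sU s) (sU s') x γ e2 t) e2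
    show Pz φ (pr k (sV s') (Str k (sU s') fun i => fac θ c γ (x i)) (sU s')) =
      Pz φ (pr k (sV s) (Str k (sU s) x) (sU s))
    rw [e4]
    refine Pz_map _ _ fun τ => h2 γ _ _ fun t => ?_
    rw [ContinuousMap.comp_apply, hGG]
  · -- the homotopy
    intro s u hu
    obtain rfl : u = sU s := ContinuousMap.ext hu
    have hM : Mn (Ow fun i => (sU s) (vtx i)) (I (k + 2) fun i => (sU s) (vtx i)) := mnw hI _
    have e1 : ∀ i : Fin (k + 2), I (k + 1) (fun l => ((s.comp (face i)) (vtx l)).2)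
        (H (s.comp (face i))) =
        I (k + 2) (fun i => (sU s) (vtx i)) (fun x => H (s.comp (face i)) fun a => x (i.succAbove a)) := by
      intro i
      rw [hI.2 (k + 1) (fun i => (sU s) (vtx i)) i _ (hHb _)]
      congr 1
      funext l
      rw [← face_vtx]
      rfl
    have hb2 : ∀ i : Fin (k + 2), Bd (fun x : Fin (k + 2) → V × U =>
        H (s.comp (face i)) fun a => x (i.succAbove a)) := by
      intro i
      obtain ⟨D, hD⟩ := hHb (s.comp (face i))
      exact ⟨D, fun x => hD _⟩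
    simp only [e1, mul_neg, Finset.sum_neg_distrib]
    rw [← hM.sum Finset.univ (fun i : Fin (k + 2) => (-1 : ℝ) ^ (i : ℕ)) fun i _ => hb2 i]
    have key : I (k + 2) (fun i => (sU s) (vtx i)) (A (sU s)) =
        I (k + 2) (fun i => (sU s) (vtx i)) (fun x => φ s + ∑ i : Fin (k + 2), (-1 : ℝ) ^ (i : ℕ) *
          H (s.comp (face i)) fun a => x (i.succAbove a)) := by
      refine hM.congr_of (hAb _) (bd_add (bd_const _) (bd_sum _ _ fun i _ => hb2 i)) fun x hx => ?_
      have e3 := Pz_bdry h3 (pr (k + 1) (sV s) (Str (k + 1) (sU s) x) (sU s))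
      rw [p1, map_sub, map_sub, Pz_single, Pz_single, map_sum, hsVU] at e3
      have e4 : ∑ i : Fin (k + 2), Pz φ (((-1 : ℝ) ^ (i : ℕ)) • pr k ((sV s).comp (face i))
          ((Str (k + 1) (sU s) x).comp (face i)) ((sU s).comp (face i))) =
          ∑ i : Fin (k + 2), (-1 : ℝ) ^ (i : ℕ) *
          H (s.comp (face i)) fun a => x (i.succAbove a) := by
        refine Finset.sum_congr rfl fun i _ => ?_
        rw [map_smul, smul_eq_mul, s1 k (sU s) x i, hH]
        rfl
      rw [e4] at e3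
      rw [hA]
      show φ ((Str (k + 1) (sU s) x).prodMk (sU s)) = _
      linarith
    rw [key, hM.add _ _ (bd_const _) (bd_sum _ _ fun i _ => hb2 i), hM.const]
    ring

end Pool.Agent.P8H88.TU
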